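import Mathlib
import Pool.Agent.H29.ENR.Fin
import Pool.Agent.H29.ENR.TopGen

/-!
# The exponent of `G / F(G)` and the Engel period of a finite group
-/

set_option autoImplicit false

namespace Pool.Agent.Results.MP_d15c96_al.AltPSLReduction

/-- `G` satisfies the law `[x, _r y] = [x, _(r + d) y]` for some `r`. -/
def Period (G : Type) [Group G] (d : ℕ) : Prop :=
  ∃ r : ℕ, ∀ x y : G,
    (fun z : G => z⁻¹ * y⁻¹ * z * y)^[r] x = (fun z : G => z⁻¹ * y⁻¹ * z * y)^[r + d] x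

/-- `e * d`, with `e = 1` for `d` even and `e = 2` for `d` odd. -/
def ed (d : ℕ) : ℕ := (if d % 2 = 0 then 1 else 2) * d

/-- The Fitting subgroup: the join of all nilpotent normal subgroups. -/
def Fit (G : Type) [Group G] : Subgroup G :=
  ⨆ (N : Subgroup G) (_ : N.Normal ∧ Group.IsNilpotent N), N

/-- The group `T⟨σ⟩`, the subgroup of `Aut T` generated by the inner automorphisms and `σ`. -/
def Ext {T : Type} [Group T] (σ : MulAut T) : Subgroup (MulAut T) :=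
  Subgroup.closure (Set.range (fun t : T => (MulAut.conj t : MulAut T)) ∪ {σ})

/-- Coprime section: there is a `σ`-invariant section `Γ / D` of `T`, of order prime to `p`, on
which `σ ^ (p ^ m)` acts nontrivially. -/
def CoprimeSection (p m : ℕ) {T : Type} [Group T] (σ : MulAut T) : Prop :=
  ∃ Γ D : Subgroup T, (∀ x, x ∈ Γ ↔ σ x ∈ Γ) ∧ (∀ x, x ∈ D ↔ σ x ∈ D) ∧ D ≤ Γ ∧
    (∀ g ∈ Γ, ∀ x ∈ D, g * x * g⁻¹ ∈ D) ∧ ¬ p ∣ D.relIndex Γ ∧ D.relIndex Γ ≠ 0 ∧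
    ∃ x ∈ Γ, (σ ^ (p ^ m)) x * x⁻¹ ∉ D

/-- Local section: for some `t ∈ T` the automorphism `σ' = conj t * σ` acts on an abelian
`p`-section `A / D` of `T` as a power map `x ↦ x ^ lam`, `lam ≡ 1 mod p`, and it fixes modulo `A` an
element `n` of order prime to `p`, normalising `A` and `D`, which does not centralise
`x ^ (p ^ m)` modulo `D`, for some `x ∈ A`. -/
def LocalSection (p m : ℕ) {T : Type} [Group T] (σ : MulAut T) : Prop :=
  ∃ (t : T) (A D : Subgroup T) (n : T) (k lam : ℕ), IsPGroup p A ∧ D ≤ A ∧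
    (∀ x ∈ A, ∀ y ∈ A, x * y * x⁻¹ * y⁻¹ ∈ D) ∧ lam ≡ 1 [MOD p] ∧
    (∀ x, x ∈ D ↔ (MulAut.conj t * σ) x ∈ D) ∧
    (∀ x ∈ A, (MulAut.conj t * σ) x * (x ^ lam)⁻¹ ∈ D) ∧
    (∀ x, x ∈ A ↔ n * x * n⁻¹ ∈ A) ∧ (∀ x, x ∈ D ↔ n * x * n⁻¹ ∈ D) ∧ n ^ k = 1 ∧ ¬ p ∣ k ∧
    (MulAut.conj t * σ) n * n⁻¹ ∈ A ∧
    ∃ x ∈ A, n * x ^ (p ^ m) * n⁻¹ * (x ^ (p ^ m))⁻¹ ∉ D

/-- The Sylow `p`-subgroups of `T` are abelian, `σ` acts as a power map on those which it
normalises, and they contain elements of order greater than `p ^ m`. -/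
def AbelianSylow (p m : ℕ) {T : Type} [Group T] (σ : MulAut T) : Prop :=
  (∀ P : Sylow p T, ∀ x ∈ P, ∀ y ∈ P, x * y = y * x) ∧
    ∀ P : Sylow p T, (∀ x, x ∈ P ↔ σ x ∈ P) →
      (∃ lam : ℕ, ∀ x ∈ P, σ x = x ^ lam) ∧ ∃ x ∈ P, x ^ (p ^ m) ≠ 1

/-- Some element `n` of order prime to `p` normalises a Sylow `p`-subgroup of `T` and does not
centralise it. -/
def NormalizerActs (p : ℕ) (T : Type) [Group T] : Prop :=
  ∃ (P : Sylow p T) (n : T) (k : ℕ), n ^ k = 1 ∧ ¬ p ∣ k ∧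
    (∀ x, x ∈ P ↔ n * x * n⁻¹ ∈ P) ∧ ∃ x ∈ P, n * x ≠ x * n

/-- The group of all sequences `η : ℤ → T` with `η (i + k) = σ (η i)` is a copy of `T ^ k` on which
the shift `y` permutes the `k` factors cyclically and `y ^ k` acts as `σ`. If `d` is a period of
both Engel maps `η ↦ η⁻¹ * η ^ y` and `η ↦ η⁻¹ * η ^ (y⁻¹)`, then `p ^ c` divides `e * d`. -/
def WreathAt (p c k : ℕ) {T : Type} [Group T] (σ : MulAut T) : Prop :=
  ∀ d : ℕ, (∀ s : ℤ, s = 1 ∨ s = -1 → ∃ r : ℕ, ∀ η : ℤ → T, (∀ i, η (i + k) = σ (η i)) →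
    (fun (ξ : ℤ → T) (i : ℤ) => (ξ i)⁻¹ * ξ (i + s))^[r] η =
      (fun (ξ : ℤ → T) (i : ℤ) => (ξ i)⁻¹ * ξ (i + s))^[r + d] η) → p ^ c ∣ ed d

/-- The conditions under which Q1 at `p` for the groups `T⟨σ⟩` is enough. Every automorphism `σ`
of `T` of `p`-power order with `σ ^ (p ^ m) ≠ 1` has a coprime section, or is an involution
(`p = 2`), or `T⟨σ⟩` has no period `d` with `p ^ (m + 1) ∤ e * d` and one of the following holds:
some `conj t * σ` of `p`-power order has a coprime section; `p ≠ 2` and `σ` has a local section, or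
the Sylow `p`-subgroups are as in `AbelianSylow`, or `m = 0` and `σ` is inner or `NormalizerActs`;
the conclusion holds for the groups `T ^ k ⟨y⟩`, `k = p ^ b > 1`, `y ^ k = conj t * σ` with
a fixed `t`. -/
def Reducible (p : ℕ) (T : Type) [Group T] : Prop :=
  ∀ (σ : MulAut T) (N m : ℕ), σ ^ (p ^ N) = 1 → σ ^ (p ^ m) ≠ 1 →
    CoprimeSection p m σ ∨ (p = 2 ∧ σ ^ 2 = 1) ∨
    ((∀ d : ℕ, Period (Ext σ) d → p ^ (m + 1) ∣ ed d) ∧
      ((∃ (t : T) (M : ℕ), (MulAut.conj t * σ) ^ (p ^ M) = 1 ∧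
          CoprimeSection p m (MulAut.conj t * σ)) ∨
        (p ≠ 2 ∧ (LocalSection p m σ ∨ AbelianSylow p m σ ∨
          (m = 0 ∧ ((∃ s : T, σ = MulAut.conj s) ∨ NormalizerActs p T)))) ∨
        ∃ t : T, ∀ b : ℕ, 1 ≤ b → WreathAt p (b + m + 1) (p ^ b) (MulAut.conj t * σ)))

/-- The admissible simple groups at `p`: the alternating groups of degree `n ≥ 5`, `n ≠ 6` if
`p = 2`; the groups `PSL(2, q)` with `q ≥ 4`, where for `p = 2` moreover `q` is even, or a power of a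
prime `≡ 1 mod 4`, or `q ≡ 3 mod 8`; and the groups satisfying `Reducible`. -/
def Admissible (p : ℕ) (T : Type) [Group T] : Prop :=
  (∃ n : ℕ, 5 ≤ n ∧ (p = 2 → n ≠ 6) ∧ Nonempty (T ≃* alternatingGroup (Fin n))) ∨
  (∃ (F : Type) (_ : Field F) (_ : Finite F),
    (4 ≤ Nat.card F ∧ (p = 2 → ringChar F = 2 ∨ ringChar F % 4 = 1 ∨ Nat.card F % 8 = 3)) ∧
    Nonempty (T ≃* Matrix.ProjectiveSpecialLinearGroup (Fin 2) F)) ∨
  Reducible p T

/-- Every composition factor of `G` of order divisible by `p` (every simple quotient `H ⧸ K`, of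
order divisible by `p`, of a subnormal subgroup `H` of `G`) is abelian or admissible. -/
def FactorsAt (G : Type) [Group G] (p : ℕ) : Prop :=
  ∀ H : Subgroup G, H.IsSubnormal → ∀ (K : Subgroup H) (_ : K.Normal), IsSimpleGroup (H ⧸ K) →
    p ∣ Nat.card (H ⧸ K) → (∀ a b : H ⧸ K, a * b = b * a) ∨ Admissible p (H ⧸ K)

section Aux

open Pool.ENR Pool.Agent.H81.ENG

theorem ef_val {T : Type} [Group T] (σ : MulAut T) (k n : ℕ) (x : TSq σ k) :
    (((ef (tsh σ k))^[n] x : TSq σ k) : ℤ → T) =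
      (fun (ξ : ℤ → T) (i : ℤ) => (ξ i)⁻¹ * ξ (i + 1))^[n] (x : ℤ → T) := by
  induction n with
  | zero => rfl
  | succ n ih =>
    rw [Function.iterate_succ_apply', Function.iterate_succ_apply', ← ih]
    funext i
    rfl

theorem tsh_inv_apply {T : Type} [Group T] (σ : MulAut T) (k : ℕ) (x : TSq σ k) (i : ℤ) :
    (((tsh σ k)⁻¹ x : TSq σ k) : ℤ → T) i = (x : ℤ → T) (i + -1) := by
  have h1 : (tsh σ k) ((tsh σ k)⁻¹ x) = x := MulAut.apply_inv_self (TSq σ k) (tsh σ k) x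
  have h2 := tsh_apply σ k ((tsh σ k)⁻¹ x) (i + -1)
  rw [h1] at h2
  have h3 : i + -1 + 1 = i := by ring
  rw [h2, h3]

theorem ef_inv_val {T : Type} [Group T] (σ : MulAut T) (k n : ℕ) (x : TSq σ k) :
    (((ef (tsh σ k)⁻¹)^[n] x : TSq σ k) : ℤ → T) =
      (fun (ξ : ℤ → T) (i : ℤ) => (ξ i)⁻¹ * ξ (i + -1))^[n] (x : ℤ → T) := by
  induction n with
  | zero => rfl
  | succ n ih =>
    rw [Function.iterate_succ_apply', Function.iterate_succ_apply', ← ih]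
    funext i
    rw [← tsh_inv_apply]
    rfl

theorem wr_of {p b m : ℕ} {T : Type} [Group T] {σ : MulAut T}
    (h : WreathAt p (b + m + 1) (p ^ b) σ) : Wr p σ b m := by
  intro d hL
  refine h d ?_
  rintro s (rfl | rfl)
  · obtain ⟨r, hr⟩ := hL.1
    refine ⟨r, fun η hη => ?_⟩
    have h1 := congrArg Subtype.val (hr ⟨η, hη⟩)
    rw [ef_val, ef_val] at h1
    exact h1
  · obtain ⟨r, hr⟩ := hL.2
    refine ⟨r, fun η hη => ?_⟩
    have h1 := congrArg Subtype.val (hr ⟨η, hη⟩)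
    rw [ef_inv_val, ef_inv_val] at h1
    exact h1

theorem red_of {p : ℕ} {T : Type} [Group T] (h : Reducible p T) : Red p T := by
  intro σ N m h1 h2
  rcases h σ N m h1 h2 with h3 | h3 | ⟨h3, h4 | h4 | ⟨t, h4⟩⟩
  · exact Or.inl h3
  · exact Or.inr (Or.inl h3)
  · exact Or.inr (Or.inr ⟨h3, Or.inl h4⟩)
  · exact Or.inr (Or.inr ⟨h3, Or.inr (Or.inl h4)⟩)
  · exact Or.inr (Or.inr ⟨h3, Or.inr (Or.inr ⟨t, fun b hb => wr_of (h4 b hb)⟩)⟩)

theorem afac_of {G : Type} [Group G] {p : ℕ} (h : FactorsAt G p) : AFac G p := by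
  intro H hH K hK hs hp
  rcases h H hH K hK hs hp with h1 | h1 | h1 | h1
  · exact Or.inl h1
  · exact Or.inr (Or.inl h1)
  · exact Or.inr (Or.inr (Or.inl h1))
  · exact Or.inr (Or.inr (Or.inr (red_of h1)))

end Aux

/-- Let `G` be a finite group with the Engel law of period `d`. If every composition factor of `G` of
order divisible by some `p ∈ π` is abelian or admissible at `p`, then the `π`-part of the exponent of
`G / F(G)` divides `e * d`. -/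
theorem result (G : Type) [Group G] [Finite G] (π : Set ℕ) (hπ : ∀ p ∈ π, p.Prime ∧ FactorsAt G p)
    (d : ℕ) (hd : Period G d) :
    ∃ n : ℕ, 0 < n ∧ (∀ p ∈ π, ¬ p ∣ n) ∧ ∀ g : G, g ^ (ed d * n) ∈ Fit G :=
  Pool.ENR.main_class Pool.ENR.Top.t_PIG Pool.ENR.Top.t_SEC Pool.ENR.Top.t_CAL
    Pool.ENR.Top.t_CP6 Pool.ENR.Top.t_AS1 Pool.ENR.Top.t_GPS Pool.ENR.Top.t_GP4
    Pool.ENR.Top.t_Q3P Pool.ENR.Top.t_GSL Pool.ENR.Top.t_GSA Pool.ENR.Top.t_INV
    Pool.ENR.Top.t_GSX Pool.ENR.Top.t_INN Pool.ENR.Top.t_OUT G π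
    (fun p hp => ⟨(hπ p hp).1, afac_of (hπ p hp).2⟩) d hd

end Pool.Agent.Results.MP_d15c96_al.AltPSLReduction
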