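import Mathlib
import Pool.Agent.H29.ENR.Fin
import Pool.Agent.H29.ENR.TopGen

/-!
# The action of a finite group on the simple factors of its chief factors, and the Engel period
-/

set_option autoImplicit false

namespace Pool.Agent.Results.MP_d15c96_al.FactorPermutation

/-- Let `G` be a finite group satisfying `[x, _r y] = [x, _(r + d) y]` for some `r`, `K` a normal
subgroup of `G` and `M` a normal subgroup of `G ⧸ K`. For every `g ∈ G` the element `g ^ (e * d)`
normalises every nonabelian simple normal subgroup `S` of `M`. -/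
theorem result (G : Type) [Group G] [Finite G] (d : ℕ)
    (hd : ∃ r : ℕ, ∀ x y : G,
      (fun z : G => z⁻¹ * y⁻¹ * z * y)^[r] x = (fun z : G => z⁻¹ * y⁻¹ * z * y)^[r + d] x)
    (K : Subgroup G) [K.Normal] (M : Subgroup (G ⧸ K)) (hM : M.Normal)
    (S : Subgroup (G ⧸ K)) (hSM : S ≤ M) (hS : ∀ m ∈ M, ∀ s ∈ S, m * s * m⁻¹ ∈ S)
    (hs : IsSimpleGroup S) (hn : ¬ ∀ a ∈ S, ∀ b ∈ S, a * b = b * a) (g : G) (t : G ⧸ K) :
    t ∈ S ↔ (g : G ⧸ K) ^ ((if d % 2 = 0 then 1 else 2) * d) * t *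
      ((g : G ⧸ K) ^ ((if d % 2 = 0 then 1 else 2) * d))⁻¹ ∈ S :=
  (Pool.ENR.main_all Pool.ENR.Top.t_PB4 Pool.ENR.Top.t_PB5 G d hd K M hM g).1 S hSM hS hs hn t

end Pool.Agent.Results.MP_d15c96_al.FactorPermutation
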