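import Mathlib
import Pool.Agent.H29.ENR.OCP

/-!
# Groups for which at most one prime divides both the order and `e * d`
-/

set_option autoImplicit false

namespace Pool.Agent.Results.MP_d15c96_al.OneCommonPrime

/-- Let `G` be a finite group satisfying `[x, _r y] = [x, _(r + d) y]` for some `r`, and suppose
that at most one prime divides both `|G|` and `e * d`. Then `g ^ (e * d)` lies in the Fitting
subgroup (the join of all nilpotent normal subgroups) for all `g`. -/
theorem result (G : Type) [Group G] [Finite G] (d : ℕ)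
    (hd : ∃ r : ℕ, ∀ x y : G,
      (fun z : G => z⁻¹ * y⁻¹ * z * y)^[r] x = (fun z : G => z⁻¹ * y⁻¹ * z * y)^[r + d] x)
    (h : ∀ p q : ℕ, p.Prime → q.Prime → p ∣ Nat.card G → q ∣ Nat.card G →
      p ∣ (if d % 2 = 0 then 1 else 2) * d → q ∣ (if d % 2 = 0 then 1 else 2) * d → p = q)
    (g : G) :
    g ^ ((if d % 2 = 0 then 1 else 2) * d) ∈
      ⨆ (N : Subgroup G) (_ : N.Normal ∧ Group.IsNilpotent N), N :=
  Pool.ENR.onep_main Pool.ENR.Top.t_FRB h hd g

end Pool.Agent.Results.MP_d15c96_al.OneCommonPrime
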