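import Mathlib
import Pool.Agent.H29.ENR.Fin2
import Pool.Agent.H29.ENR.TopGen2

/-!
# The exponent of `G / F(G)` divides the square of `e * d`
-/

set_option autoImplicit false

namespace Pool.Agent.Results.MP_d15c96_al.SquaredBound

/-- `G` satisfies the law `[x, _r y] = [x, _(r + d) y]` for some `r`. -/
def Period (G : Type) [Group G] (d : ℕ) : Prop :=
  ∃ r : ℕ, ∀ x y : G,
    (fun z : G => z⁻¹ * y⁻¹ * z * y)^[r] x = (fun z : G => z⁻¹ * y⁻¹ * z * y)^[r + d] x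

/-- `e * d`, with `e = 1` for `d` even and `e = 2` for `d` odd. -/
def ed (d : ℕ) : ℕ := (if d % 2 = 0 then 1 else 2) * d

/-- The group `T⟨σ⟩`, the subgroup of `Aut T` generated by the inner automorphisms and `σ`. -/
def Ext {T : Type} [Group T] (σ : MulAut T) : Subgroup (MulAut T) :=
  Subgroup.closure (Set.range (fun t : T => (MulAut.conj t : MulAut T)) ∪ {σ})

/-- The simple groups allowed at `p`: the alternating groups of degree `n ≥ 5`, `n ≠ 6` if `p = 2`;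
the groups `PSL(2, q)` with `q ≥ 4`; and the groups `T` such that, for every automorphism `σ` of
`p`-power order and every period `d` of `T⟨σ⟩`, the order of `σ` divides `e * d`. -/
def Allowed (p : ℕ) (T : Type) [Group T] : Prop :=
  (∃ n : ℕ, 5 ≤ n ∧ (p = 2 → n ≠ 6) ∧ Nonempty (T ≃* alternatingGroup (Fin n))) ∨
  (∃ (F : Type) (_ : Field F) (_ : Finite F), 4 ≤ Nat.card F ∧
    Nonempty (T ≃* Matrix.ProjectiveSpecialLinearGroup (Fin 2) F)) ∨
  ∀ (σ : MulAut T) (N : ℕ), σ ^ (p ^ N) = 1 → ∀ d : ℕ, Period (Ext σ) d → orderOf σ ∣ ed d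

/-- Let `G` be a finite group with the Engel law of period `d`. If every composition factor of `G` of
order divisible by some `p ∈ π` is abelian or allowed at `p`, then the `π`-part of the exponent of
`G / F(G)` divides `(e * d) ^ 2`. -/
theorem result (G : Type) [Group G] [Finite G] (π : Set ℕ)
    (hπ : ∀ p ∈ π, p.Prime ∧ ∀ H : Subgroup G, H.IsSubnormal → ∀ (K : Subgroup H) (_ : K.Normal),
      IsSimpleGroup (H ⧸ K) → p ∣ Nat.card (H ⧸ K) →
        (∀ a b : H ⧸ K, a * b = b * a) ∨ Allowed p (H ⧸ K))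
    (d : ℕ) (hd : Period G d) :
    ∃ n : ℕ, 0 < n ∧ (∀ p ∈ π, ¬ p ∣ n) ∧
      ∀ g : G, g ^ (ed d ^ 2 * n) ∈
        (⨆ (N : Subgroup G) (_ : N.Normal ∧ Group.IsNilpotent N), N) := by
  refine Pool.ENR.main_sq Pool.ENR.Top2.t_PIG2 Pool.ENR.Top2.t_CAL Pool.ENR.Top2.t_CP6
    Pool.ENR.Top2.t_AS1 Pool.ENR.Top2.t_GPS Pool.ENR.Top2.t_SQC Pool.ENR.Top2.t_SQA
    Pool.ENR.Top2.t_SB1 Pool.ENR.Top2.t_Q7B G π (fun p hp => ⟨(hπ p hp).1, ?_⟩) d hd
  intro H hH K hK hs hpd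
  rcases (hπ p hp).2 H hH K hK hs hpd with h1 | h1 | h1 | h1
  · exact Or.inl h1
  · exact Or.inr (Or.inl h1)
  · exact Or.inr (Or.inr (Or.inl h1))
  · refine Or.inr (Or.inr (Or.inr fun σ N m h2 h3 d' hd' => ?_))
    have h4 := h1 σ N h2 d' hd'
    obtain ⟨c, -, hc⟩ := (Nat.dvd_prime_pow (hπ p hp).1).mp (orderOf_dvd_of_pow_eq_one h2)
    have h5 : m + 1 ≤ c := by
      by_contra hlt
      apply h3
      rw [← orderOf_dvd_iff_pow_eq_one, hc]
      exact pow_dvd_pow p (by omega)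
    exact dvd_trans (pow_dvd_pow p h5) (hc ▸ h4)

end Pool.Agent.Results.MP_d15c96_al.SquaredBound
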